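import Pool.Agent.H37.CTL.Stmts

/-!
# T33: no stable lines and planes
-/

set_option autoImplicit false

namespace Pool.CND

open Finset Polynomial

namespace T33a

/-! ### Integral elements of `k(t)` -/

theorem int_poly {k L : Type} [Field k] [Field L] [Algebra k L] {t : L}
    (ht : Transcendental k t) {x : L} (hx : x ∈ IntermediateField.adjoin k {t})
    (hi : (aeval t : Polynomial k →ₐ[k] L).toRingHom.IsIntegralElem x) :
    ∃ P : Polynomial k, x = aeval t P := by
  let _ : Algebra (Polynomial k) L := (aeval t : Polynomial k →ₐ[k] L).toRingHom.toAlgebra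
  have halg : ∀ P : Polynomial k, algebraMap (Polynomial k) L P = aeval t P := fun P => rfl
  have hinj : Function.Injective (algebraMap (Polynomial k) L) :=
    transcendental_iff_injective.1 ht
  let ψ : FractionRing (Polynomial k) →ₐ[Polynomial k] L :=
    IsFractionRing.liftAlgHom (g := Algebra.ofId (Polynomial k) L) hinj
  rw [IntermediateField.mem_adjoin_simple_iff] at hx
  obtain ⟨r, s, hrs⟩ := hx
  have hψ : ψ (algebraMap _ (FractionRing (Polynomial k)) r /
      algebraMap _ (FractionRing (Polynomial k)) s) = x := by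
    rw [map_div₀, AlgHom.commutes, AlgHom.commutes, halg, halg, hrs]
  have h1 : IsIntegral (Polynomial k) (ψ (algebraMap _ (FractionRing (Polynomial k)) r /
      algebraMap _ (FractionRing (Polynomial k)) s)) := by
    rw [hψ]
    exact hi
  rw [isIntegral_algHom_iff ψ ψ.toRingHom.injective] at h1
  obtain ⟨P, hP⟩ := (IsIntegrallyClosed.isIntegral_iff).1 h1
  refine ⟨P, ?_⟩
  rw [← hψ, ← hP, AlgHom.commutes, halg]

section

variable {k F L : Type} [Field k] [Field F] [Algebra F k] [Field L] [Algebra k L]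

/-- the root `x_u` -/
noncomputable def xv (k : Type) {F L : Type} [Field k] [Field F] [Algebra F k] [Field L]
    [Algebra k L] (X : Fin 3 → L) (u : Fin 3 → F) : L := ∑ i, cst k F L (u i) * X i

theorem xv_add (X : Fin 3 → L) (u v : Fin 3 → F) : xv k X (u + v) = xv k X u + xv k X v := by
  unfold xv
  rw [← sum_add_distrib]
  refine sum_congr rfl fun i _ => ?_
  simp only [Pi.add_apply, cst, map_add, add_mul]

theorem xv_smul (X : Fin 3 → L) (c : F) (u : Fin 3 → F) :
    xv k X (c • u) = cst k F L c * xv k X u := by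
  unfold xv
  rw [mul_sum]
  refine sum_congr rfl fun i _ => ?_
  simp only [Pi.smul_apply, smul_eq_mul, cst, map_mul, mul_assoc]

theorem xv_inj {X : Fin 3 → L} (hind : ∀ c : Fin 3 → F, ∑ i, cst k F L (c i) * X i = 0 → c = 0) :
    Function.Injective (xv k X : (Fin 3 → F) → L) := by
  intro u v huv
  have h1 : xv k X (u + (-1 : F) • v) = 0 := by
    rw [xv_add, xv_smul, huv]
    simp only [cst, map_neg, map_one]
    ring
  have h2 := hind _ h1
  have h3 : u = v := by
    have : u - v = 0 := by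
      rw [← h2]
      simp [sub_eq_add_neg]
    exact sub_eq_zero.1 this
  exact h3

/-- the linearised polynomial `β x ^ (q ^ 2) + γ x ^ q + δ x` -/
def ev (q : ℕ) (β γ δ x : L) : L := β * x ^ q ^ 2 + γ * x ^ q + δ * x

theorem pow_q_add {p f q : ℕ} (hp : p.Prime) (hc : CharP k p) (hq : q = p ^ f) (m : ℕ) (x y : L) :
    (x + y) ^ q ^ m = x ^ q ^ m + y ^ q ^ m := by
  have : Fact p.Prime := ⟨hp⟩
  have : CharP L p := charP_of_injective_algebraMap (algebraMap k L).injective p
  rw [hq, ← pow_mul]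
  exact add_pow_char_pow x y p (f * m)

theorem cst_pow [Finite F] {q : ℕ} (hF : Nat.card F = q) (m : ℕ) (c : F) :
    cst k F L c ^ q ^ m = cst k F L c := by
  have := Fintype.ofFinite F
  rw [Nat.card_eq_fintype_card] at hF
  unfold cst
  rw [← map_pow, ← map_pow, ← hF, FiniteField.pow_card_pow]

theorem cst_pow1 [Finite F] {q : ℕ} (hF : Nat.card F = q) (c : F) :
    cst k F L c ^ q = cst k F L c := by
  have := cst_pow (k := k) (L := L) hF 1 c
  rwa [pow_one] at this

theorem ev_add {p f q : ℕ} (hp : p.Prime) (hc : CharP k p) (hq : q = p ^ f) (β γ δ x y : L) :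
    ev q β γ δ (x + y) = ev q β γ δ x + ev q β γ δ y := by
  unfold ev
  have h1 := pow_q_add (L := L) hp hc hq 1 x y
  rw [pow_one] at h1
  rw [pow_q_add (L := L) hp hc hq 2 x y, h1]
  ring

theorem ev_smul [Finite F] {q : ℕ} (hF : Nat.card F = q) (β γ δ x : L) (c : F) :
    ev q β γ δ (cst k F L c * x) = cst k F L c * ev q β γ δ x := by
  unfold ev
  rw [mul_pow, mul_pow, cst_pow hF, cst_pow1 hF]
  ring

/-- the first uniqueness lemma -/
theorem uniq1 [Finite F] {q : ℕ} (hq : 2 ≤ q) {X : Fin 3 → L}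
    (hinj : Function.Injective (xv k X : (Fin 3 → F) → L)) (U : Submodule F (Fin 3 → F))
    (hU : q < Nat.card U) (γ δ : L) (h : ∀ u ∈ U, γ * xv k X u ^ q + δ * xv k X u = 0) :
    γ = 0 ∧ δ = 0 := by
  classical
  have := Fintype.ofFinite U
  have hP : (C γ * Polynomial.X ^ q + C δ * Polynomial.X : Polynomial L) = 0 := by
    refine Polynomial.eq_zero_of_natDegree_lt_card_of_eval_eq_zero _
      (f := fun u : U => xv k X (u : Fin 3 → F)) ?_ ?_ ?_
    · intro u v huv
      exact Subtype.ext (hinj huv)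
    · intro u
      have := h u.1 u.2
      simpa using this
    · rw [← Nat.card_eq_fintype_card]
      refine lt_of_le_of_lt ?_ hU
      refine (natDegree_add_le _ _).trans (max_le ?_ ?_)
      · exact natDegree_C_mul_X_pow_le _ _
      · exact (natDegree_C_mul_le _ _).trans ((natDegree_X_le).trans (by omega))
  constructor
  · have := congrArg (fun P => P.coeff q) hP
    simp only [coeff_add, coeff_C_mul, coeff_X_pow, coeff_X, coeff_zero] at this
    rw [if_pos trivial, if_neg (by omega)] at this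
    simpa using this
  · have := congrArg (fun P => P.coeff 1) hP
    simp only [coeff_add, coeff_C_mul, coeff_X_pow, coeff_X, coeff_zero] at this
    rw [if_neg (by omega)] at this
    simpa using this

/-- the second uniqueness lemma -/
theorem uniq2 [Finite F] {q : ℕ} (hq : 2 ≤ q) {X : Fin 3 → L}
    (hinj : Function.Injective (xv k X : (Fin 3 → F) → L))
    (hU : q ^ 2 < Nat.card (Fin 3 → F)) (β γ δ : L)
    (h : ∀ u : Fin 3 → F, ev q β γ δ (xv k X u) = 0) :
    β = 0 ∧ γ = 0 ∧ δ = 0 := by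
  classical
  have := Fintype.ofFinite F
  have hq2 : q < q ^ 2 := by nlinarith
  have hP : (C β * Polynomial.X ^ q ^ 2 + C γ * Polynomial.X ^ q + C δ * Polynomial.X :
      Polynomial L) = 0 := by
    refine Polynomial.eq_zero_of_natDegree_lt_card_of_eval_eq_zero _
      (f := (xv k X : (Fin 3 → F) → L)) hinj ?_ ?_
    · intro u
      have := h u
      unfold ev at this
      simpa using this
    · rw [← Nat.card_eq_fintype_card]
      refine lt_of_le_of_lt ?_ hU
      refine (natDegree_add_le _ _).trans (max_le ?_ ?_)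
      · refine (natDegree_add_le _ _).trans (max_le ?_ ?_)
        · exact natDegree_C_mul_X_pow_le _ _
        · exact (natDegree_C_mul_X_pow_le _ _).trans (by omega)
      · exact (natDegree_C_mul_le _ _).trans ((natDegree_X_le).trans (by omega))
  refine ⟨?_, ?_, ?_⟩
  · have := congrArg (fun P => P.coeff (q ^ 2)) hP
    simp only [coeff_add, coeff_C_mul, coeff_X_pow, coeff_X, coeff_zero] at this
    rw [if_pos trivial, if_neg (by omega), if_neg (by omega)] at this
    simpa using this
  · have := congrArg (fun P => P.coeff q) hP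
    simp only [coeff_add, coeff_C_mul, coeff_X_pow, coeff_X, coeff_zero] at this
    rw [if_pos trivial, if_neg (by omega), if_neg (by omega)] at this
    simpa using this
  · have := congrArg (fun P => P.coeff 1) hP
    simp only [coeff_add, coeff_C_mul, coeff_X_pow, coeff_X, coeff_zero] at this
    rw [if_neg (by omega), if_neg (by omega)] at this
    simpa using this

/-- the action on the roots -/
theorem act_xv {t : L} {X : Fin 3 → L} {G₀ : Subgroup (Matrix.SpecialLinearGroup (Fin 3) F)}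
    {ρ : G₀ →* (L ≃ₐ[k] L)} (hC : C3 k F L t X G₀ ρ) (g : G₀) (u : Fin 3 → F) :
    ρ g (xv k X u) = xv k X (g.1.1.mulVec u) := by
  unfold xv
  rw [map_sum]
  have h1 : ∀ i, ρ g (cst k F L (u i) * X i) =
      ∑ j, cst k F L (g.1.1 j i * u i) * X j := by
    intro i
    have hc : ρ g (cst k F L (u i)) = cst k F L (u i) := AlgEquiv.commutes _ _
    rw [map_mul, hC.act g i, hc, mul_sum]
    refine sum_congr rfl fun j _ => ?_
    simp only [cst, map_mul]
    ring
  rw [sum_congr rfl fun i _ => h1 i, sum_comm]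
  refine sum_congr rfl fun j _ => ?_
  rw [← sum_mul]
  congr 1
  unfold Matrix.mulVec dotProduct
  simp only [cst, map_sum]


theorem integ_xv {p f q : ℕ} (hp : p.Prime) (hf : 1 ≤ f) (hq : q = p ^ f)
    {a b : Polynomial k} {t : L} {X : Fin 3 → L} (hS : S3 k F L q a b t X) (u : Fin 3 → F) :
    (aeval t : Polynomial k →ₐ[k] L).toRingHom.IsIntegralElem (xv k X u) := by
  have hq2 : 2 ≤ q := by
    rw [hq]
    calc 2 ≤ p := hp.two_le
      _ = p ^ 1 := (pow_one p).symm
      _ ≤ p ^ f := Nat.pow_le_pow_right hp.pos hf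
  have hX : ∀ i, (aeval t : Polynomial k →ₐ[k] L).toRingHom.IsIntegralElem (X i) := by
    intro i
    refine ⟨Polynomial.X ^ q ^ 3 + (C a * Polynomial.X ^ q ^ 2 + C b * Polynomial.X ^ q +
      Polynomial.X), ?_, ?_⟩
    · refine monic_X_pow_add ?_
      have h0 : q < q ^ 2 := by nlinarith
      have h2 : q ^ 2 < q ^ 3 := by nlinarith
      have h1 : q < q ^ 3 := h0.trans h2
      have h3 : 1 < q ^ 3 := by omega
      refine lt_of_le_of_lt (degree_add_le _ _) (max_lt ?_ ?_)
      · refine lt_of_le_of_lt (degree_add_le _ _) (max_lt ?_ ?_)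
        · exact lt_of_le_of_lt (degree_C_mul_X_pow_le _ _) (by exact_mod_cast h2)
        · exact lt_of_le_of_lt (degree_C_mul_X_pow_le _ _) (by exact_mod_cast h1)
      · exact lt_of_le_of_lt degree_X_le (by exact_mod_cast h3)
    · have := hS.rel i
      simp only [eval₂_add, eval₂_mul, eval₂_pow, eval₂_X, eval₂_C]
      rw [← this]
      simp only [AlgHom.toRingHom_eq_coe, RingHom.coe_coe]
      ring
  unfold xv
  let _ : Algebra (Polynomial k) L := (aeval t : Polynomial k →ₐ[k] L).toRingHom.toAlgebra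
  have hX' : ∀ i, IsIntegral (Polynomial k) (X i) := hX
  have hcst : ∀ c : F, IsIntegral (Polynomial k) (cst k F L c) := by
    intro c
    have h : cst k F L c = algebraMap (Polynomial k) L (C (algebraMap F k c)) := by
      change _ = aeval t (C (algebraMap F k c))
      rw [aeval_C]
    rw [h]
    exact isIntegral_algebraMap
  exact IsIntegral.sum _ fun i _ => (hcst (u i)).mul (hX' i)

theorem rel_xv {p f q : ℕ} [Finite F] (hp : p.Prime) (hc : CharP k p) (hq : q = p ^ f)
    (hF : Nat.card F = q) {a b : Polynomial k} {t : L} {X : Fin 3 → L}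
    (hS : S3 k F L q a b t X) (u : Fin 3 → F) :
    xv k X u ^ q ^ 3 + aeval t a * xv k X u ^ q ^ 2 + aeval t b * xv k X u ^ q + xv k X u = 0 := by
  have : Fact p.Prime := ⟨hp⟩
  have : CharP L p := charP_of_injective_algebraMap (algebraMap k L).injective p
  have hpow : ∀ m, xv k X u ^ q ^ m = ∑ i, cst k F L (u i) * X i ^ q ^ m := by
    intro m
    unfold xv
    have h1 := sum_pow_char_pow p (f * m) (univ : Finset (Fin 3))
      (fun i => cst k F L (u i) * X i)
    rw [pow_mul, ← hq] at h1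
    rw [h1]
    refine sum_congr rfl fun i _ => ?_
    rw [mul_pow, cst_pow hF]
  have h1 := hpow 1
  rw [pow_one] at h1
  rw [hpow 3, hpow 2, h1, mul_sum, mul_sum]
  unfold xv
  rw [← sum_add_distrib, ← sum_add_distrib, ← sum_add_distrib]
  refine sum_eq_zero fun i _ => ?_
  have := hS.rel i
  linear_combination (cst k F L (u i)) * this

/-- divisors of a constant -/
theorem unit_C {P Q : Polynomial k} {e : k} (he : e ≠ 0) (h : P * Q = C e) :
    ∃ σ : k, σ ≠ 0 ∧ P = C σ := by
  have hu : IsUnit P := by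
    refine IsUnit.of_mul_eq_one (Q * C e⁻¹) ?_
    rw [← mul_assoc, h, ← C_mul, mul_inv_cancel₀ he, C_1]
  obtain ⟨σ, hσ, h1⟩ := Polynomial.isUnit_iff.1 hu
  exact ⟨σ, hσ.ne_zero, h1.symm⟩

/-- no stable line -/
theorem line {p f q : ℕ} (hp : p.Prime) (hc : CharP k p) (hf : 1 ≤ f)
    (hq : q = p ^ f) (hF : Nat.card F = q)
    {a b : Polynomial k} {t : L} {X : Fin 3 → L}
    {G₀ : Subgroup (Matrix.SpecialLinearGroup (Fin 3) F)} {ρ : G₀ →* (L ≃ₐ[k] L)}
    (hS : S3 k F L q a b t X) (hC : C3 k F L t X G₀ ρ)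
    (hab : ∀ α β : k, α ≠ 0 → a ≠ C α * b + C β) (u : Fin 3 → F) (hu : u ≠ 0)
    (hst : ∀ g ∈ G₀, ∃ c : F, g.1.mulVec u = c • u) : False := by
  have hfin : Finite F := by
    apply Nat.finite_of_card_ne_zero
    rw [hF, hq]
    exact (pow_pos hp.pos f).ne'
  have hq2 : 2 ≤ q := by
    rw [hq]
    calc 2 ≤ p := hp.two_le
      _ = p ^ 1 := (pow_one p).symm
      _ ≤ p ^ f := Nat.pow_le_pow_right hp.pos hf
  obtain ⟨n, hn⟩ : ∃ n, q = n + 1 := ⟨q - 1, by omega⟩
  set x : L := xv k X u with hx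
  have hinj := xv_inj (k := k) hS.ind
  have hx0 : x ≠ 0 := by
    intro h
    refine hu (hinj ?_)
    rw [← hx, h]
    unfold xv
    simp [cst]
  -- `s = x ^ (q - 1)` is fixed
  have hfix : ∀ g : G₀, ρ g (x ^ n) = x ^ n := by
    intro g
    obtain ⟨c, hcu⟩ := hst g.1 g.2
    have h1 : ρ g x = cst k F L c * x := by
      rw [hx, act_xv hC g u, hcu, xv_smul]
    have hc0 : cst k F L c ≠ 0 := by
      intro h
      rw [h, zero_mul] at h1
      exact hx0 ((map_eq_zero_iff (ρ g) (ρ g).injective).1 h1)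
    have h2 : cst k F L c ^ n = 1 := by
      have h3 := cst_pow1 (k := k) (L := L) hF c
      rw [hn, pow_succ] at h3
      exact mul_right_cancel₀ hc0 (by rw [h3, one_mul])
    rw [map_pow, h1, mul_pow, h2, one_mul]
  have hmem := (hC.cov.fixed (x ^ n)).1 hfix
  have hint : (aeval t : Polynomial k →ₐ[k] L).toRingHom.IsIntegralElem (x ^ n) := by
    let _ : Algebra (Polynomial k) L := (aeval t : Polynomial k →ₐ[k] L).toRingHom.toAlgebra
    have h : IsIntegral (Polynomial k) x := integ_xv hp hf hq hS u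
    exact h.pow n
  obtain ⟨s, hs⟩ := int_poly hS.tr hmem hint
  -- the equation
  have hE : x ^ q ^ 3 + aeval t a * x ^ q ^ 2 + aeval t b * x ^ q + x = 0 := rel_xv hp hc hq hF hS u
  have hEs : aeval t (s * (s ^ (q ^ 2 + q) + a * s ^ q + b)) = aeval t (C (-1 : k)) := by
    simp only [map_mul, map_add, map_pow, map_neg, map_one]
    rw [← hs]
    refine mul_right_cancel₀ hx0 ?_
    have e1 : x ^ q ^ 3 = (x ^ n) ^ (q ^ 2 + q) * x ^ n * x := by
      rw [← pow_mul, ← pow_add, ← pow_succ]
      congr 1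
      rw [hn]
      ring
    have e2 : x ^ q ^ 2 = (x ^ n) ^ q * x ^ n * x := by
      rw [← pow_mul, ← pow_add, ← pow_succ]
      congr 1
      rw [hn]
      ring
    have e3 : x ^ q = x ^ n * x := by
      rw [hn, pow_succ]
    rw [e1, e2, e3] at hE
    linear_combination hE
  have hE' := (transcendental_iff_injective.1 hS.tr) hEs
  obtain ⟨σ, hσ, rfl⟩ := unit_C (e := (-1 : k)) (by simp) hE'
  refine hab (-(σ ^ q)⁻¹) (-(σ ^ q)⁻¹ * (σ⁻¹ + σ ^ (q ^ 2 + q))) 
    (neg_ne_zero.2 (inv_ne_zero (pow_ne_zero _ hσ))) ?_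
  have hCσ : C σ * C σ⁻¹ = (1 : Polynomial k) := by
    rw [← C_mul, mul_inv_cancel₀ hσ, C_1]
  have hCq : C (σ ^ q) * C (σ ^ q)⁻¹ = (1 : Polynomial k) := by
    rw [← C_mul, mul_inv_cancel₀ (pow_ne_zero _ hσ), C_1]
  have h5 : C σ ^ (q ^ 2 + q) + a * C σ ^ q + b = -C σ⁻¹ := by
    have h6 : C σ⁻¹ * (C σ * (C σ ^ (q ^ 2 + q) + a * C σ ^ q + b)) = C σ⁻¹ * C (-1) := by
      rw [hE']
    rw [← mul_assoc, mul_comm (C σ⁻¹) (C σ), hCσ, one_mul] at h6
    rw [h6, C_neg, C_1]
    ring
  simp only [C_mul, C_add, C_neg, C_pow] at h5 hCq ⊢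
  linear_combination (C (σ ^ q)⁻¹) * h5 - a * hCq

/-- no stable plane -/
theorem plane {p f q : ℕ} (hp : p.Prime) (hc : CharP k p) (hf : 1 ≤ f)
    (hq : q = p ^ f) (hF : Nat.card F = q)
    {a b : Polynomial k} {t : L} {X : Fin 3 → L}
    {G₀ : Subgroup (Matrix.SpecialLinearGroup (Fin 3) F)} {ρ : G₀ →* (L ≃ₐ[k] L)}
    (hS : S3 k F L q a b t X) (hC : C3 k F L t X G₀ ρ)
    (hab : ∀ α β : k, α ≠ 0 → a ≠ C α * b ^ q + C β) (U : Submodule F (Fin 3 → F))
    (hU : ∀ g ∈ G₀, ∀ u ∈ U, g.1.mulVec u ∈ U) (u v w : Fin 3 → F)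
    (hspan : ∀ z ∈ U, ∃ c d : F, z = c • u + d • v)
    (hall : ∀ z : Fin 3 → F, ∃ z' ∈ U, ∃ c : F, z = z' + c • w)
    (hcard : Nat.card U = q ^ 2) : False := by
  have hfin : Finite F := by
    apply Nat.finite_of_card_ne_zero
    rw [hF, hq]
    exact (pow_pos hp.pos f).ne'
  have hq2 : 2 ≤ q := by
    rw [hq]
    calc 2 ≤ p := hp.two_le
      _ = p ^ 1 := (pow_one p).symm
      _ ≤ p ^ f := Nat.pow_le_pow_right hp.pos hf
  obtain ⟨n, hn⟩ : ∃ n, q = n + 1 := ⟨q - 1, by omega⟩
  have : Fact p.Prime := ⟨hp⟩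
  have : CharP L p := charP_of_injective_algebraMap (algebraMap k L).injective p
  have hinj := xv_inj (k := k) hS.ind
  have hqadd : ∀ x y : L, (x + y) ^ q = x ^ q + y ^ q := by
    intro x y
    rw [hq]
    exact add_pow_char_pow x y p f
  have hqsub : ∀ x y : L, (x - y) ^ q = x ^ q - y ^ q := by
    intro x y
    rw [hq]
    exact sub_pow_char_pow x y f
  have hpw : ∀ (x : L) (m : ℕ), (x ^ q ^ m) ^ q = x ^ q ^ (m + 1) := by
    intro x m
    rw [← pow_mul, ← pow_succ]
  have hsucc : ∀ x : L, x ^ q = x ^ n * x := by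
    intro x
    rw [hn, pow_succ]
  set A : L := xv k X u ^ n with hA
  set S : L := xv k X v ^ q - A * xv k X v with hSdef
  set B : L := S ^ n with hB
  set c : L := -(A ^ q + B) with hcdef
  set d : L := A * B with hddef
  -- the polynomial `R`
  have hR : ∀ x : L, ev q 1 c d x = (x ^ q - A * x) ^ q - B * (x ^ q - A * x) := by
    intro x
    unfold ev
    have h1 := hpw x 1
    rw [pow_one] at h1
    rw [hqsub, mul_pow, h1, hcdef, hddef]
    ring
  have hRu : ev q 1 c d (xv k X u) = 0 := by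
    rw [hR, hsucc (xv k X u), ← hA, sub_self, mul_zero, sub_zero]
    exact zero_pow (by omega)
  have hRv : ev q 1 c d (xv k X v) = 0 := by
    rw [hR, ← hSdef, hsucc S, ← hB, sub_self]
  have hRU : ∀ z ∈ U, ev q 1 c d (xv k X z) = 0 := by
    intro z hz
    obtain ⟨c0, c1, rfl⟩ := hspan z hz
    rw [xv_add, xv_smul, xv_smul, ev_add hp hc hq, ev_smul hF, ev_smul hF, hRu, hRv, mul_zero,
      mul_zero, add_zero]
  have hρev : ∀ (g : G₀) (x : L), ρ g (ev q 1 c d x) = ev q 1 (ρ g c) (ρ g d) (ρ g x) := by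
    intro g x
    unfold ev
    simp only [map_add, map_mul, map_pow, map_one]
  -- `c`, `d` are fixed
  have hfix : ∀ g : G₀, ρ g c = c ∧ ρ g d = d := by
    intro g
    have h := uniq1 hq2 hinj U (by rw [hcard]; nlinarith) (ρ g c - c) (ρ g d - d) (by
      intro z hz
      have h1 : ρ g (ρ g⁻¹ (xv k X z)) = xv k X z := by
        rw [← AlgEquiv.mul_apply, ← map_mul, mul_inv_cancel, map_one, AlgEquiv.one_apply]
      have h2 : ev q 1 c d (ρ g⁻¹ (xv k X z)) = 0 := by
        rw [act_xv hC g⁻¹ z]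
        exact hRU _ (hU _ (g⁻¹).2 z hz)
      have h3 := hρev g (ρ g⁻¹ (xv k X z))
      rw [h2, map_zero, h1] at h3
      have h4 := hRU z hz
      unfold ev at h3 h4
      linear_combination -h3 - h4)
    exact ⟨sub_eq_zero.1 h.1, sub_eq_zero.1 h.2⟩
  -- `y`, `s`
  set y : L := ev q 1 c d (xv k X w) with hy
  have hyg : ∀ g : G₀, ∃ e : F, ρ g y = cst k F L e * y := by
    intro g
    obtain ⟨z', hz', e, he⟩ := hall (g.1.1.mulVec w)
    refine ⟨e, ?_⟩
    rw [hy, hρev, (hfix g).1, (hfix g).2, act_xv hC g w, he, xv_add, xv_smul,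
      ev_add hp hc hq, ev_smul hF, hRU z' hz', zero_add]
  have hsg : ∀ g : G₀, ρ g (y ^ n) = y ^ n := by
    intro g
    obtain ⟨e, he⟩ := hyg g
    by_cases hy0 : y = 0
    · rw [map_pow, hy0, map_zero]
    · have hc0 : cst k F L e ≠ 0 := by
        intro h
        rw [h, zero_mul] at he
        exact hy0 ((map_eq_zero_iff (ρ g) (ρ g).injective).1 he)
      have h2 : cst k F L e ^ n = 1 := by
        have h3 := cst_pow1 (k := k) (L := L) hF e
        rw [hn, pow_succ] at h3
        exact mul_right_cancel₀ hc0 (by rw [h3, one_mul])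
      rw [map_pow, he, mul_pow, h2, one_mul]
  -- integrality
  obtain ⟨c', hc'⟩ : ∃ P : Polynomial k, c = aeval t P := by
    refine int_poly hS.tr ((hC.cov.fixed c).1 fun g => (hfix g).1) ?_
    let _ : Algebra (Polynomial k) L := (aeval t : Polynomial k →ₐ[k] L).toRingHom.toAlgebra
    have hi : ∀ z, IsIntegral (Polynomial k) (xv k X z) := fun z => integ_xv hp hf hq hS z
    have hiA : IsIntegral (Polynomial k) A := (hi u).pow n
    have hiS : IsIntegral (Polynomial k) S := ((hi v).pow q).sub (hiA.mul (hi v))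
    exact ((hiA.pow q).add (hiS.pow n)).neg
  obtain ⟨d', hd'⟩ : ∃ P : Polynomial k, d = aeval t P := by
    refine int_poly hS.tr ((hC.cov.fixed d).1 fun g => (hfix g).2) ?_
    let _ : Algebra (Polynomial k) L := (aeval t : Polynomial k →ₐ[k] L).toRingHom.toAlgebra
    have hi : ∀ z, IsIntegral (Polynomial k) (xv k X z) := fun z => integ_xv hp hf hq hS z
    have hiA : IsIntegral (Polynomial k) A := (hi u).pow n
    have hiS : IsIntegral (Polynomial k) S := ((hi v).pow q).sub (hiA.mul (hi v))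
    exact hiA.mul (hiS.pow n)
  obtain ⟨s', hs'⟩ : ∃ P : Polynomial k, y ^ n = aeval t P := by
    refine int_poly hS.tr ((hC.cov.fixed (y ^ n)).1 hsg) ?_
    let _ : Algebra (Polynomial k) L := (aeval t : Polynomial k →ₐ[k] L).toRingHom.toAlgebra
    have hi : ∀ z, IsIntegral (Polynomial k) (xv k X z) := fun z => integ_xv hp hf hq hS z
    have hiA : IsIntegral (Polynomial k) A := (hi u).pow n
    have hiS : IsIntegral (Polynomial k) S := ((hi v).pow q).sub (hiA.mul (hi v))
    have hic : IsIntegral (Polynomial k) c := ((hiA.pow q).add (hiS.pow n)).neg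
    have hid : IsIntegral (Polynomial k) d := hiA.mul (hiS.pow n)
    have hiy : IsIntegral (Polynomial k) y := by
      rw [hy]
      unfold ev
      exact ((isIntegral_one.mul ((hi w).pow _)).add (hic.mul ((hi w).pow _))).add
        (hid.mul (hi w))
    exact hiy.pow n
  -- the identity
  have hid : ∀ x : L, ev q (aeval t a - c ^ q + y ^ n) (aeval t b - d ^ q + y ^ n * c)
      (1 + y ^ n * d) x = (x ^ q ^ 3 + aeval t a * x ^ q ^ 2 + aeval t b * x ^ q + x) -
        (ev q 1 c d x ^ q - y ^ n * ev q 1 c d x) := by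
    intro x
    unfold ev
    have h1 := hpw x 1
    rw [pow_one] at h1
    rw [one_mul, hqadd, hqadd, mul_pow, mul_pow, hpw x 2, h1]
    ring
  have hz := uniq2 hq2 hinj (by
      rw [Nat.card_fun, hF, Nat.card_eq_fintype_card, Fintype.card_fin]
      exact Nat.pow_lt_pow_right hq2 (by norm_num)) (aeval t a - c ^ q + y ^ n)
    (aeval t b - d ^ q + y ^ n * c) (1 + y ^ n * d) (by
      intro z
      obtain ⟨z', hz', e, rfl⟩ := hall z
      rw [xv_add, xv_smul, ev_add hp hc hq, ev_smul hF]
      have e1 : ev q (aeval t a - c ^ q + y ^ n) (aeval t b - d ^ q + y ^ n * c)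
          (1 + y ^ n * d) (xv k X z') = 0 := by
        rw [hid, rel_xv hp hc hq hF hS z', hRU z' hz', zero_pow (by omega)]
        ring
      have e2 : ev q (aeval t a - c ^ q + y ^ n) (aeval t b - d ^ q + y ^ n * c)
          (1 + y ^ n * d) (xv k X w) = 0 := by
        rw [hid, rel_xv hp hc hq hF hS w, ← hy, hsucc y]
        ring
      rw [e1, e2, mul_zero, add_zero])
  obtain ⟨hz1, hz2, hz3⟩ := hz
  rw [hc', hs'] at hz1
  rw [hc', hd', hs'] at hz2
  rw [hd', hs'] at hz3
  have hinjt := transcendental_iff_injective.1 hS.tr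
  have E1 : a - c' ^ q + s' = 0 := by
    apply hinjt
    rw [map_zero, ← hz1]
    simp only [map_add, map_sub, map_pow]
  have E2 : b - d' ^ q + s' * c' = 0 := by
    apply hinjt
    rw [map_zero, ← hz2]
    simp only [map_add, map_sub, map_pow, map_mul]
  have E3 : 1 + s' * d' = 0 := by
    apply hinjt
    rw [map_zero, ← hz3]
    simp only [map_add, map_mul, map_one]
  have E3' : s' * d' = C (-1 : k) := by
    rw [C_neg, C_1]
    linear_combination E3
  obtain ⟨σ, hσ, rfl⟩ := unit_C (e := (-1 : k)) (by simp) E3'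
  rw [mul_comm] at E3'
  obtain ⟨τ, hτ, rfl⟩ := unit_C (e := (-1 : k)) (by simp) E3'
  have hCσ : C σ * C σ⁻¹ = (1 : Polynomial k) := by
    rw [← C_mul, mul_inv_cancel₀ hσ, C_1]
  have hc2 : c' = C σ⁻¹ * (C τ ^ q - b) := by
    linear_combination (C σ⁻¹) * E2 - c' * hCσ
  have hc3 : c' ^ q = C (σ⁻¹ ^ q) * (C ((τ ^ q) ^ q) - b ^ q) := by
    have h1 : (C τ ^ q - b) ^ q = (C τ ^ q) ^ q - b ^ q := by
      rw [hq]
      exact sub_pow_char_pow _ _ f
    rw [hc2, mul_pow, h1]
    simp only [C_pow]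
  refine hab (-(σ⁻¹ ^ q)) (σ⁻¹ ^ q * (τ ^ q) ^ q - σ)
    (neg_ne_zero.2 (pow_ne_zero _ (inv_ne_zero hσ))) ?_
  rw [C_neg, C_sub, C_mul]
  linear_combination E1 + hc3

end

end T33a

/-- T33 -/
theorem t33_thm : S_T33 := by
  intro p k F L _ _ _ _ _ _ f q a b t X G₀ ρ hp hc hf hq hF hS hC h1 h2 U hU
  have hfin : Finite F := by
    apply Nat.finite_of_card_ne_zero
    rw [hF, hq]
    exact (pow_pos hp.pos f).ne'
  have htot : Module.finrank F (Fin 3 → F) = 3 := by
    rw [Module.finrank_fin_fun]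
  have hle : Module.finrank F U ≤ 3 := by
    have := Submodule.finrank_le U
    rwa [htot] at this
  have hcases : Module.finrank F U = 0 ∨ Module.finrank F U = 1 ∨ Module.finrank F U = 2 ∨
      Module.finrank F U = 3 := by omega
  rcases hcases with h | h | h | h
  · left
    exact Submodule.finrank_eq_zero.1 h
  · exfalso
    obtain ⟨u, hu, hall⟩ := finrank_eq_one_iff'.1 h
    refine T33a.line hp hc hf hq hF hS hC h1 u.1 (fun h0 => hu (Subtype.ext h0)) ?_
    intro g hg
    obtain ⟨c, hcu⟩ := hall ⟨g.1.mulVec u.1, hU g hg u.1 u.2⟩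
    exact ⟨c, by
      have := congrArg Subtype.val hcu
      exact this.symm⟩
  · exfalso
    have hne : U ≠ ⊤ := by
      intro h0
      rw [h0, finrank_top, htot] at h
      omega
    obtain ⟨w, hw⟩ : ∃ w, w ∉ U := by
      by_contra hcon
      push Not at hcon
      exact hne (Submodule.eq_top_iff'.2 hcon)
    let B := Module.finBasisOfFinrankEq F U h
    refine T33a.plane hp hc hf hq hF hS hC h2 U hU (B 0).1 (B 1).1 w ?_ ?_ ?_
    · intro z hz
      refine ⟨B.repr ⟨z, hz⟩ 0, B.repr ⟨z, hz⟩ 1, ?_⟩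
      have := congrArg Subtype.val (B.sum_repr ⟨z, hz⟩)
      rw [Fin.sum_univ_two] at this
      exact this.symm
    · have hlt : U < U ⊔ Submodule.span F {w} := by
        refine lt_of_le_of_ne le_sup_left ?_
        intro heq
        refine hw ?_
        rw [heq]
        exact (le_sup_right : Submodule.span F {w} ≤ U ⊔ Submodule.span F {w})
          (Submodule.mem_span_singleton_self w)
      have h3 := Submodule.finrank_lt_finrank_of_lt hlt
      have h4 : U ⊔ Submodule.span F {w} = ⊤ := by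
        apply Submodule.eq_top_of_finrank_eq
        have h5 := Submodule.finrank_le (U ⊔ Submodule.span F {w})
        rw [htot] at h5 ⊢
        omega
      intro z
      have hz : z ∈ U ⊔ Submodule.span F {w} := by rw [h4]; exact Submodule.mem_top
      obtain ⟨z', hz', y, hy, rfl⟩ := Submodule.mem_sup.1 hz
      obtain ⟨c, rfl⟩ := Submodule.mem_span_singleton.1 hy
      exact ⟨z', hz', c, rfl⟩
    · rw [Module.natCard_eq_pow_finrank (K := F), h, hF]
  · right
    apply Submodule.eq_top_of_finrank_eq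
    rw [h, htot]

end Pool.CND
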